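import Pool.Agent.helper14.NR.E4b.PN1

/-!
Generated: certificates.
-/

namespace Pool.Agent.helper14.NR.E4b

open Pool.Agent.helper31.IA (Z)
open Pool.Agent.helper31.IX (Op XOps runX Cov CovD cov_split covD_split)
open Pool.Agent.helper31.IC (TD)
open Pool.Agent.helper63.RG (reloc)
open Pool.Agent.helper63.NF hiding TD
open Pool.Agent.helper14.CF (xE covD_E)
open Pool.Agent.helper14.NR (share)

mutual
theorem D1_c0_t2 : CovD 1 gD1 [(233646325760, 13744209920), (233646325760, 68720001024), (863554764800, 863554764800)] :=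
  covD_E kD1_eq (.n 1 (.n 2 (.n 2 (.l 0) (.l 0)) (.n 2 (.l 0) (.l 0))) (.n 2 (.n 2 (.l 0) (.l 0)) (.n 2 (.l 0) (.n 0 (.l 0) (.l 0)))))
    [(233646325760, 13744209920), (233646325760, 68720001024), (863554764800, 863554764800)] rfl (by decide +kernel)
theorem D1_c0_t3 : CovD 1 gD1 [(233646325760, 13744209920), (371086327808, 68720001024), (863554764800, 863554764800)] :=
  covD_E kD1_eq (.n 2 (.n 1 (.n 2 (.l 0) (.l 0)) (.n 2 (.l 0) (.l 0))) (.n 2 (.n 1 (.l 0) (.l 0)) (.n 2 (.l 0) (.n 0 (.l 0) (.l 0)))))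
    [(233646325760, 13744209920), (371086327808, 68720001024), (863554764800, 863554764800)] rfl (by decide +kernel)
end

mutual
theorem D1_c0_t5 : CovD 1 gD1 [(261134745600, 13744209920), (233646325760, 68720001024), (863554764800, 863554764800)] :=
  covD_E kD1_eq (.n 1 (.n 2 (.n 2 (.l 0) (.l 0)) (.n 2 (.l 0) (.n 0 (.l 0) (.l 0)))) (.n 2 (.n 2 (.l 0) (.l 0)) (.n 2 (.l 0) (.n 0 (.l 0) (.l 0)))))
    [(261134745600, 13744209920), (233646325760, 68720001024), (863554764800, 863554764800)] rfl (by decide +kernel)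
theorem D1_c0_t6 : CovD 1 gD1 [(261134745600, 13744209920), (371086327808, 68720001024), (863554764800, 863554764800)] :=
  covD_E kD1_eq (.n 1 (.n 2 (.n 2 (.l 0) (.l 0)) (.n 0 (.n 2 (.l 0) (.l 0)) (.n 2 (.l 0) (.l 0)))) (.n 2 (.n 2 (.l 0) (.l 0)) (.n 2 (.l 0) (.n 0 (.l 0) (.l 0)))))
    [(261134745600, 13744209920), (371086327808, 68720001024), (863554764800, 863554764800)] rfl (by decide +kernel)
end

mutual
theorem E1_c0_t4 : CovD 1 gE1 [(233646325760, 13744209920), (199286325248, 34360000512), (431777382400, 431777382400)] :=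
  covD_E kE1_eq (.n 2 (.n 0 (.n 1 (.l 1) (.l 1)) (.n 1 (.l 1) (.l 1))) (.n 2 (.n 0 (.n 0 (.n 1 (.n 2 (.l 1) (.l 0)) (.l 0)) (.l 0)) (.l 0)) (.l 0)))
    [(233646325760, 13744209920), (199286325248, 34360000512), (431777382400, 431777382400)] rfl (by decide +kernel)
theorem E1_c0_t5 : CovD 1 gE1 [(233646325760, 13744209920), (268006326272, 34360000512), (431777382400, 431777382400)] :=
  covD_E kE1_eq (.n 2 (.n 2 (.l 1) (.n 1 (.n 0 (.l 1) (.l 1)) (.n 1 (.l 1) (.l 1)))) (.n 2 (.n 0 (.l 0) (.l 0)) (.l 0)))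
    [(233646325760, 13744209920), (268006326272, 34360000512), (431777382400, 431777382400)] rfl (by decide +kernel)
end

mutual
theorem E1_c0_t6 : CovD 1 gE1 [(261134745600, 13744209920), (233646325760, 68720001024), (431777382400, 431777382400)] :=
  covD_E kE1_eq (.n 1 (.n 2 (.n 1 (.l 1) (.l 1)) (.n 2 (.n 0 (.l 0) (.l 0)) (.l 0))) (.n 2 (.n 2 (.l 1) (.l 0)) (.n 2 (.l 0) (.l 0))))
    [(261134745600, 13744209920), (233646325760, 68720001024), (431777382400, 431777382400)] rfl (by decide +kernel)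
theorem E1_c0_t8 : CovD 1 gE1 [(247390535680, 27488419840), (336726327296, 34360000512), (431777382400, 431777382400)] :=
  covD_E kE1_eq (.n 0 (.n 2 (.n 2 (.l 1) (.n 0 (.n 2 (.l 1) (.n 0 (.n 0 (.l 0) (.l 0)) (.l 0))) (.l 0))) (.n 2 (.l 0) (.l 0))) (.n 2 (.n 2 (.l 1) (.l 0)) (.n 2 (.l 0) (.l 0))))
    [(247390535680, 27488419840), (336726327296, 34360000512), (431777382400, 431777382400)] rfl (by decide +kernel)
end

mutual
theorem E1_c0_t9 : CovD 1 gE1 [(247390535680, 27488419840), (405446328320, 34360000512), (431777382400, 431777382400)] :=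
  covD_E kE1_eq (.n 2 (.n 2 (.l 1) (.n 0 (.n 2 (.l 1) (.n 2 (.n 1 (.l 1) (.l 1)) (.l 0))) (.l 0))) (.n 0 (.n 2 (.l 0) (.l 0)) (.n 2 (.l 0) (.l 0))))
    [(247390535680, 27488419840), (405446328320, 34360000512), (431777382400, 431777382400)] rfl (by decide +kernel)
theorem E1_c0_t11 : CovD 1 gE1 [(233646325760, 13744209920), (302366326784, 137440002048), (1295332147200, 431777382400)] :=
  covD_E kE1_eq (.n 1 (.n 1 (.n 2 (.n 2 (.l 0) (.l 0)) (.n 0 (.l 0) (.l 0))) (.n 2 (.n 2 (.l 0) (.l 0)) (.n 0 (.l 0) (.l 0)))) (.n 0 (.n 2 (.n 2 (.l 0) (.l 0)) (.n 1 (.l 0) (.l 0))) (.n 2 (.n 2 (.l 0) (.l 0)) (.n 1 (.l 0) (.l 0)))))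
    [(233646325760, 13744209920), (302366326784, 137440002048), (1295332147200, 431777382400)] rfl (by decide +kernel)
end

theorem E1_c0_t12 : CovD 1 gE1 [(261134745600, 13744209920), (302366326784, 137440002048), (1295332147200, 431777382400)] :=
  covD_E kE1_eq (.n 1 (.n 1 (.n 2 (.n 2 (.l 0) (.l 0)) (.n 0 (.l 0) (.l 0))) (.n 2 (.n 2 (.l 0) (.l 0)) (.n 0 (.l 0) (.l 0)))) (.n 1 (.n 2 (.n 2 (.l 0) (.l 0)) (.n 0 (.l 0) (.l 0))) (.n 2 (.n 2 (.l 0) (.l 0)) (.n 0 (.l 0) (.l 0)))))
    [(261134745600, 13744209920), (302366326784, 137440002048), (1295332147200, 431777382400)] rfl (by decide +kernel)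

theorem D1_c0_t1 : CovD 1 gD1 [(233646325760, 13744209920), (302366326784, 137440002048), (863554764800, 863554764800)] :=
  covD_split 1 (by decide +kernel) D1_c0_t2 D1_c0_t3

theorem D1_c0_t4 : CovD 1 gD1 [(261134745600, 13744209920), (302366326784, 137440002048), (863554764800, 863554764800)] :=
  covD_split 1 (by decide +kernel) D1_c0_t5 D1_c0_t6

theorem D1_c0 : CovD 1 gD1 [(247390535680, 27488419840), (302366326784, 137440002048), (863554764800, 863554764800)] :=
  covD_split 0 (by decide +kernel) D1_c0_t1 D1_c0_t4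

theorem E1_c0_t3 : CovD 1 gE1 [(233646325760, 13744209920), (233646325760, 68720001024), (431777382400, 431777382400)] :=
  covD_split 1 (by decide +kernel) E1_c0_t4 E1_c0_t5

theorem E1_c0_t2 : CovD 1 gE1 [(247390535680, 27488419840), (233646325760, 68720001024), (431777382400, 431777382400)] :=
  covD_split 0 (by decide +kernel) E1_c0_t3 E1_c0_t6

theorem E1_c0_t7 : CovD 1 gE1 [(247390535680, 27488419840), (371086327808, 68720001024), (431777382400, 431777382400)] :=
  covD_split 1 (by decide +kernel) E1_c0_t8 E1_c0_t9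

theorem E1_c0_t1 : CovD 1 gE1 [(247390535680, 27488419840), (302366326784, 137440002048), (431777382400, 431777382400)] :=
  covD_split 1 (by decide +kernel) E1_c0_t2 E1_c0_t7

theorem E1_c0_t10 : CovD 1 gE1 [(247390535680, 27488419840), (302366326784, 137440002048), (1295332147200, 431777382400)] :=
  covD_split 0 (by decide +kernel) E1_c0_t11 E1_c0_t12

theorem E1_c0 : CovD 1 gE1 [(247390535680, 27488419840), (302366326784, 137440002048), (863554764800, 863554764800)] :=
  covD_split 2 (by decide +kernel) E1_c0_t1 E1_c0_t10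

end Pool.Agent.helper14.NR.E4b
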